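import Pool.Agent.Q28.CV.Mean

/-!
# The relations on average over the primes, with the weights of the mean square
-/

set_option autoImplicit false
set_option linter.unusedSectionVars false

namespace Pool.Agent.Q28.CV

open Finset Pool.Agent.Q28.CS Pool.Agent.Q28.CU

/-- the sum over the triples and the exponents -/
noncomputable def SV (T N : ℕ) (𝓜 : Finset ℕ) (r : ℕ → ℝ) (q : ℕ) : ℝ :=
  ∑ x ∈ off N 𝓜, ∑ t ∈ Icc 1 T, if (x.1 * x.2.2) ^ t ≡ x.2.1 ^ t [MOD q] then vv r x else 0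

variable {𝓜 : Finset ℕ} {r : ℕ → ℝ}

lemma SV_nonneg (hr : ∀ n, 0 ≤ r n) (T N : ℕ) (q : ℕ) : 0 ≤ SV T N 𝓜 r q := by
  unfold SV
  refine sum_nonneg fun x _ => sum_nonneg fun t _ => ?_
  split_ifs
  · exact vv_nonneg hr x
  · exact le_rfl

open Classical in
lemma relv_le (hr : ∀ n, 0 ≤ r n) {q : ℕ} [NeZero q] {G : Subgroup (ZMod q)ˣ} {T N : ℕ}
    (hT : Nat.card G ≤ T) :
    ∑ x ∈ (off N 𝓜).filter (fun x => Rel G (x.1 * x.2.2) x.2.1), vv r x ≤ SV T N 𝓜 r q := by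
  unfold SV
  rw [sum_filter]
  refine sum_le_sum fun x _ => ?_
  have h0 : ∀ t ∈ Icc 1 T, (0 : ℝ) ≤ if (x.1 * x.2.2) ^ t ≡ x.2.1 ^ t [MOD q] then vv r x else 0 := by
    intro t _
    split_ifs
    · exact vv_nonneg hr x
    · exact le_rfl
  split_ifs with hR
  · obtain ⟨g, hg, e⟩ := hR
    have hk : 1 ≤ Nat.card G := Nat.card_pos
    have h2 : g ^ Nat.card G = 1 := by
      have h3 : (⟨g, hg⟩ : G) ^ Nat.card G = 1 := pow_card_eq_one'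
      have h4 : ((⟨g, hg⟩ ^ Nat.card G : G) : (ZMod q)ˣ) = ((1 : G) : (ZMod q)ˣ) := by rw [h3]
      rw [Subgroup.coe_pow, Subgroup.coe_one] at h4
      exact h4
    have h3 : (x.1 * x.2.2) ^ Nat.card G ≡ x.2.1 ^ Nat.card G [MOD q] := by
      rw [← ZMod.natCast_eq_natCast_iff, Nat.cast_pow, Nat.cast_pow, e, mul_pow, ← Units.val_pow_eq_pow_val,
        h2, Units.val_one, one_mul]
    refine le_trans (le_of_eq ?_) (single_le_sum h0 (mem_Icc.2 ⟨hk, hT⟩))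
    rw [if_pos h3]
  · exact sum_nonneg h0

lemma harm_le (N : ℕ) : ∑ k ∈ Icc 1 N, ((k : ℕ) : ℝ)⁻¹ ≤ 1 + Real.log N := by
  have h := harmonic_le_one_add_log N
  rw [harmonic_eq_sum_Icc] at h
  push_cast at h
  exact h

/-- **The relations on average.** -/
theorem avgv (hr : ∀ n, 0 ≤ r n) {𝒬 : Finset ℕ} {Q T N M h : ℕ} (hQ : 2 ≤ Q)
    (h𝒬 : ∀ q ∈ 𝒬, q.Prime ∧ Q ≤ q) (h𝓜 : ∀ n ∈ 𝓜, n ≤ M) (hN1 : 1 ≤ N) (hNM : N * M ≤ Q ^ h) :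
    ∑ q ∈ 𝒬, SV T N 𝓜 r q ≤ h * (T : ℝ) ^ 2 * (1 + Real.log N) * (∑ n ∈ 𝓜, r n) ^ 2 := by
  classical
  have h1 : ∑ q ∈ 𝒬, SV T N 𝓜 r q = ∑ x ∈ off N 𝓜,
      ∑ t ∈ Icc 1 T, ∑ q ∈ 𝒬, if (x.1 * x.2.2) ^ t ≡ x.2.1 ^ t [MOD q] then vv r x else 0 := by
    unfold SV
    rw [sum_comm]
    refine sum_congr rfl fun v _ => ?_
    rw [sum_comm]
  have h2 : ∀ x ∈ off N 𝓜,
      (∑ t ∈ Icc 1 T, ∑ q ∈ 𝒬, if (x.1 * x.2.2) ^ t ≡ x.2.1 ^ t [MOD q] then vv r x else 0) ≤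
      h * (T : ℝ) ^ 2 * vv r x := by
    intro x hx
    obtain ⟨⟨hx1, hxN⟩, hx3, hx4, hx5⟩ := mem_off hx
    have k1 : x.1 * x.2.2 ≤ Q ^ h := (Nat.mul_le_mul hxN (h𝓜 _ hx4)).trans hNM
    have k2 : x.2.1 ≤ Q ^ h := by
      calc x.2.1 ≤ M := h𝓜 _ hx3
        _ = 1 * M := (one_mul M).symm
        _ ≤ N * M := Nat.mul_le_mul_right _ hN1
        _ ≤ Q ^ h := hNM
    have h3 : ∀ t ∈ Icc 1 T, (∑ q ∈ 𝒬, if (x.1 * x.2.2) ^ t ≡ x.2.1 ^ t [MOD q] then vv r x else 0) ≤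
        h * T * vv r x := by
      intro t ht
      rw [mem_Icc] at ht
      rw [← sum_filter, sum_const, nsmul_eq_mul]
      refine mul_le_mul_of_nonneg_right ?_ (vv_nonneg hr x)
      have h4 := count_le (h := h) hQ h𝒬 hx5 ht.1 k1 k2
      have h5 : #(𝒬.filter (fun q => (x.1 * x.2.2) ^ t ≡ x.2.1 ^ t [MOD q])) ≤ h * T :=
        h4.trans (Nat.mul_le_mul_left _ ht.2)
      exact_mod_cast h5
    refine (sum_le_sum h3).trans (le_of_eq ?_)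
    rw [sum_const, nsmul_eq_mul, Nat.card_Icc, Nat.add_sub_cancel]
    ring
  rw [h1]
  refine (sum_le_sum h2).trans ?_
  rw [← mul_sum, mul_assoc (h * (T : ℝ) ^ 2) (1 + Real.log N)]
  refine mul_le_mul_of_nonneg_left ?_ (by positivity)
  refine (sum_le_sum_of_subset_of_nonneg (filter_subset _ _) fun x _ _ => vv_nonneg hr x).trans ?_
  have e : ∑ x ∈ Icc 1 N ×ˢ (𝓜 ×ˢ 𝓜), vv r x = (∑ k ∈ Icc 1 N, ((k : ℕ) : ℝ)⁻¹) * (∑ n ∈ 𝓜, r n) ^ 2 := by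
    rw [sum_product, sum_mul]
    refine sum_congr rfl fun k _ => ?_
    rw [sq, sum_mul_sum, ← sum_product', mul_sum]
    rfl
  rw [e]
  exact mul_le_mul_of_nonneg_right (harm_le N) (by positivity)

/-- the number of the exceptional primes -/
theorem excv (hr : ∀ n, 0 ≤ r n) {𝒬 : Finset ℕ} {Q T N M h : ℕ} (hQ : 2 ≤ Q)
    (h𝒬 : ∀ q ∈ 𝒬, q.Prime ∧ Q ≤ q) (h𝓜 : ∀ n ∈ 𝓜, n ≤ M) (hN1 : 1 ≤ N) (hNM : N * M ≤ Q ^ h)
    (hU1 : 0 < U1 𝓜 r) {Δ ρ : ℝ} (hΔ : (∑ n ∈ 𝓜, r n) ^ 2 ≤ Δ * U1 𝓜 r) :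
    ∃ 𝓔 : Finset ℕ, (#𝓔 : ℝ) * ρ ≤ h * (T : ℝ) ^ 2 * (1 + Real.log N) * Δ ∧
      ∀ q ∈ 𝒬, q ∉ 𝓔 → SV T N 𝓜 r q ≤ ρ * U1 𝓜 r := by
  classical
  have hlog : 0 ≤ Real.log N := Real.log_natCast_nonneg N
  refine ⟨𝒬.filter (fun q => ρ * U1 𝓜 r < SV T N 𝓜 r q), ?_, fun q hq hqE => ?_⟩
  · have h1 := avgv (T := T) hr hQ h𝒬 h𝓜 hN1 hNM
    have h2 : ∑ _q ∈ 𝒬.filter (fun q => ρ * U1 𝓜 r < SV T N 𝓜 r q), (ρ * U1 𝓜 r) ≤
        ∑ q ∈ 𝒬, SV T N 𝓜 r q := by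
      refine (sum_le_sum fun q hq => (mem_filter.1 hq).2.le).trans ?_
      exact sum_le_sum_of_subset_of_nonneg (filter_subset _ _) fun q _ _ => SV_nonneg hr _ _ _
    rw [sum_const, nsmul_eq_mul] at h2
    have h3 : h * (T : ℝ) ^ 2 * (1 + Real.log N) * (∑ n ∈ 𝓜, r n) ^ 2 ≤
        h * (T : ℝ) ^ 2 * (1 + Real.log N) * (Δ * U1 𝓜 r) := mul_le_mul_of_nonneg_left hΔ (by positivity)
    have h4 := h2.trans (h1.trans h3)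
    refine le_of_mul_le_mul_right ?_ hU1
    linarith
  · by_contra hcon
    exact hqE (mem_filter.2 ⟨hq, not_le.1 hcon⟩)

end Pool.Agent.Q28.CV
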