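import Pool.Agent.Q28.CV.Good

/-!
# Large central values in most cosets, for almost all primes: two parameters
-/

set_option autoImplicit false
set_option linter.unusedSectionVars false

namespace Pool.Agent.Q28.CV

open Finset Filter Pool.Agent.Q28.CS Pool.Agent.Q28.CU Pool.Agent.Q28.SG

/-- a bad character makes its coset bad -/
lemma coset_bad {q : ℕ} [NeZero q] (hq : q.Prime) {H : Subgroup (DirichletCharacter ℂ q)} {V : ℝ}
    {ψ : DirichletCharacter ℂ q} (hψ : ∀ χ : DirichletCharacter ℂ q, ψ⁻¹ * χ ∈ H → χ ≠ 1 →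
      ‖χ.LFunction (1 / 2)‖ < V) :
    (q : ℝ) - 1 ≤ (H.index : ℝ) * ({ψ : DirichletCharacter ℂ q | ∀ χ : DirichletCharacter ℂ q, ψ⁻¹ * χ ∈ H →
      χ ≠ 1 → ‖χ.LFunction (1 / 2)‖ < V}.ncard : ℝ) := by
  classical
  have h1 : ((cs H ψ : Finset (DirichletCharacter ℂ q)) : Set (DirichletCharacter ℂ q)) ⊆
      {ψ : DirichletCharacter ℂ q | ∀ χ : DirichletCharacter ℂ q, ψ⁻¹ * χ ∈ H →
      χ ≠ 1 → ‖χ.LFunction (1 / 2)‖ < V} := by
    intro φ hφ χ hχ hχ1
    rw [mem_coe, mem_cs] at hφ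
    refine hψ χ ?_ hχ1
    have h2 := H.mul_mem hφ hχ
    rwa [mul_assoc, mul_inv_cancel_left] at h2
  have h2 := Set.ncard_le_ncard h1 (Set.toFinite _)
  rw [Set.ncard_coe_finset, card_coset (mem_Hs H) (mem_cs H ψ)] at h2
  have h3 := card_orth (mem_Hs H)
  rw [Nat.totient_prime hq, index_eq H (mem_Hs H)] at h3
  have h4 : ((#(Hs H) * H.index : ℕ) : ℝ) = ((q - 1 : ℕ) : ℝ) := by rw [h3]
  rw [Nat.cast_sub hq.one_lt.le] at h4
  push_cast at h4
  rw [← h4, mul_comm]
  refine mul_le_mul_of_nonneg_left ?_ (Nat.cast_nonneg _)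
  exact_mod_cast h2

/-- **Large central values in most cosets, for almost all primes.** -/
theorem two_param {θ s ε : ℝ} (hθ : 0 ≤ θ) (hs : 0 < s) (hε : 0 < ε) (hsum1 : 2 * θ + s + ε ≤ 1) :
    ∃ c : ℝ, 0 < c ∧ ∃ Q₀ : ℕ, ∀ Q : ℕ, Q₀ ≤ Q →
    ∃ 𝓔 : Finset ℕ, (#𝓔 : ℝ) ≤ (Q : ℝ) ^ (2 * θ + s + ε) ∧
    ∀ (q : ℕ) [NeZero q], q.Prime → Q ≤ q → q ≤ 2 * Q → q ∉ 𝓔 →
      ∀ H : Subgroup (DirichletCharacter ℂ q), (H.index : ℝ) ≤ (q : ℝ) ^ θ →
        ({ψ : DirichletCharacter ℂ q | ∀ χ : DirichletCharacter ℂ q, ψ⁻¹ * χ ∈ H → χ ≠ 1 →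
          ‖χ.LFunction (1 / 2)‖ <
            Real.exp (c * √(Real.log q * Real.log (Real.log (Real.log q)) / Real.log (Real.log q)))}.ncard : ℝ) ≤
          (q : ℝ) ^ (1 - s) ∧
        (θ < s → ∀ ψ : DirichletCharacter ℂ q, ∃ χ : DirichletCharacter ℂ q, ψ⁻¹ * χ ∈ H ∧ χ ≠ 1 ∧
          Real.exp (c * √(Real.log q * Real.log (Real.log (Real.log q)) / Real.log (Real.log q))) ≤
            ‖χ.LFunction (1 / 2)‖) := by
  classical
  obtain ⟨l0, hl030, Hc⟩ := coef
  obtain ⟨δ, hδ⟩ : ∃ δ : ℝ, δ = ε / 50 := ⟨_, rfl⟩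
  have hδ0 : 0 < δ := by rw [hδ]; positivity
  have hε1 : ε < 1 := by linarith only [hθ, hs, hsum1]
  have hs1 : s < 1 := by linarith only [hθ, hε, hsum1]
  have hδ1 : δ ≤ 1 / 50 := by rw [hδ]; linarith only [hε1]
  obtain ⟨L₀, hL₀⟩ := eventually_atTop.1 (((eventually_ge_atTop (300 : ℝ)).and
    (eventually_ge_atTop (gl l0 / δ))).and ((ev_log 2 13 (show 0 < ε / 8 by positivity)).and
    ((Real.tendsto_log_atTop.eventually (ev_sqrt 1 (1 - Real.log δ) one_pos)).and
    (eventually_ge_atTop (1 / (s - θ))))))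
  refine ⟨√(δ / 4) / 10000, by positivity, ⌈Real.exp L₀⌉₊, fun Q hQQ => ?_⟩
  have hQ0 : (0 : ℝ) < Q := lt_of_lt_of_le (Real.exp_pos L₀) ((Nat.le_ceil _).trans (by exact_mod_cast hQQ))
  have hLL : L₀ ≤ Real.log Q := by
    rw [Real.le_log_iff_exp_le hQ0]
    exact (Nat.le_ceil _).trans (by exact_mod_cast hQQ)
  obtain ⟨L, hLdef⟩ : ∃ L, L = Real.log Q := ⟨_, rfl⟩
  rw [← hLdef] at hLL
  obtain ⟨⟨hE1, hE2⟩, hE3, hE4, hE5⟩ := hL₀ _ hLL
  rw [one_mul, one_mul] at hE4
  have hL0 : 0 < L := by linarith only [hE1]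
  have hlL0 : 0 ≤ Real.log L := Real.log_nonneg (by linarith only [hE1])
  have hQ2 : 2 ≤ Q := by
    have h1 : (1 : ℝ) < Q := (Real.log_pos_iff hQ0.le).1 (hLdef ▸ hL0)
    exact_mod_cast h1
  have hexpL : Real.exp L = Q := by rw [hLdef, Real.exp_log hQ0]
  have hlog2 := Real.log_two_lt_d9
  have hlog2' := Real.log_two_gt_d9
  have hεL : ε * L ≤ 1 * L := mul_le_mul_of_nonneg_right hε1.le hL0.le
  have hθL : θ * L ≤ 1 / 2 * L - 1 / 2 * (ε * L) := by
    have := mul_le_mul_of_nonneg_right (show θ ≤ 1 / 2 - 1 / 2 * ε by linarith only [hs, hsum1]) hL0.le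
    linarith only [this]
  have hεL0 : 0 < ε * L := mul_pos hε hL0
  have hδεL : δ * L = ε * L / 50 := by rw [hδ]; ring
  -- the parameters
  have hX0 : gl l0 ≤ δ * L := by
    rw [div_le_iff₀ hδ0] at hE2
    linarith only [hE2]
  obtain ⟨l, hl0, hgl, hgl2⟩ := exists_param hX0
  obtain ⟨𝓜, r, M, hr, hM1, hlogM, h𝓜, hU1, hsum, hU0⟩ := Hc l hl0
  have hlgl : (l : ℝ) ≤ gl l := le_gl l
  have hgl0 : 0 ≤ gl l := le_trans (Nat.cast_nonneg l) hlgl
  obtain ⟨Δ, hΔ⟩ : ∃ Δ, Δ = Real.exp (gl l / 2) := ⟨_, rfl⟩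
  rw [← hΔ] at hsum
  have hΔ1 : 1 ≤ Δ := by
    rw [hΔ]
    exact Real.one_le_exp (by positivity)
  have hlogΔ : Real.log Δ = gl l / 2 := by rw [hΔ, Real.log_exp]
  obtain ⟨T, hTdef⟩ : ∃ T : ℕ, T = ⌊((2 : ℝ) * Q) ^ θ⌋₊ := ⟨_, rfl⟩
  have h2Q1 : 1 ≤ (2 : ℝ) * Q := by
    have : (2 : ℝ) ≤ Q := by exact_mod_cast hQ2
    linarith only [this]
  have hT1 : 1 ≤ T := by
    rw [hTdef]
    refine Nat.le_floor ?_
    push_cast
    exact Real.one_le_rpow h2Q1 hθ
  have hT0 : (0 : ℝ) < T := by exact_mod_cast hT1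
  have hlogT : Real.log T ≤ θ * L + 1 := by
    have h1 : (T : ℝ) ≤ ((2 : ℝ) * Q) ^ θ := by
      rw [hTdef]
      exact Nat.floor_le (by positivity)
    have h2 := Real.log_le_log hT0 h1
    rw [Real.log_rpow (by positivity), Real.log_mul (by norm_num) hQ0.ne', ← hLdef] at h2
    have h4 : θ * (Real.log 2 + L) ≤ θ * L + 1 := by
      have : θ * Real.log 2 ≤ 1 * Real.log 2 :=
        mul_le_mul_of_nonneg_right (by linarith only [hε, hs, hsum1]) (Real.log_nonneg (by norm_num))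
      linarith only [this, hlog2]
    linarith only [h2, h4]
  -- the length
  obtain ⟨N, hN⟩ : ∃ N : ℕ, N = ⌈8 * (Q : ℝ) * Real.log (2 * Q) ^ 2⌉₊ := ⟨_, rfl⟩
  have hlog2Q : Real.log (2 * Q) = Real.log 2 + L := by
    rw [Real.log_mul (by norm_num) hQ0.ne', hLdef]
  have hNge : 8 * (Q : ℝ) * Real.log (2 * Q) ^ 2 ≤ N := by
    rw [hN]
    exact Nat.le_ceil _
  have hNle : (N : ℝ) ≤ 33 * Q * L ^ 2 := by
    have h1 := Nat.ceil_lt_add_one (show 0 ≤ 8 * (Q : ℝ) * Real.log (2 * Q) ^ 2 by positivity)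
    rw [← hN, hlog2Q] at h1
    have h2 : (Real.log 2 + L) ^ 2 ≤ 4 * L ^ 2 := by
      have h3 : Real.log 2 + L ≤ 2 * L := by linarith only [hlog2, hE1]
      have h4 : 0 ≤ Real.log 2 + L := by linarith only [hlog2', hL0]
      nlinarith only [h3, h4]
    have h3 : 8 * (Q : ℝ) * (Real.log 2 + L) ^ 2 ≤ 8 * Q * (4 * L ^ 2) := mul_le_mul_of_nonneg_left h2 (by positivity)
    have h4 : (1 : ℝ) ≤ Q * L ^ 2 := by
      have h5 : (1 : ℝ) ≤ Q := by exact_mod_cast (by omega : 1 ≤ Q)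
      have h6 : (1 : ℝ) ≤ L ^ 2 := by nlinarith only [hE1]
      nlinarith only [h5, h6]
    linarith only [h1, h3, h4]
  have hQN : (Q : ℝ) ≤ N := by
    refine le_trans ?_ hNge
    rw [hlog2Q]
    have h6 : (1 : ℝ) ≤ 8 * (Real.log 2 + L) ^ 2 := by nlinarith only [hE1, hlog2']
    calc (Q : ℝ) = Q * 1 := (mul_one _).symm
      _ ≤ Q * (8 * (Real.log 2 + L) ^ 2) := mul_le_mul_of_nonneg_left h6 hQ0.le
      _ = _ := by ring
  have hN1 : 1 ≤ N := by
    have h1 : Q ≤ N := by exact_mod_cast hQN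
    omega
  have hN0 : (0 : ℝ) < N := by exact_mod_cast hN1
  have hlogN : Real.log N ≤ L + 2 * Real.log L + 4 := by
    have h1 := Real.log_le_log hN0 hNle
    rw [Real.log_mul (by positivity) (by positivity), Real.log_mul (by norm_num) hQ0.ne', Real.log_pow, ← hLdef] at h1
    have h33 : Real.log 33 ≤ 4 := by
      have h2 : Real.log 33 ≤ Real.log (2 ^ 5 * 2) := Real.log_le_log (by norm_num) (by norm_num)
      rw [Real.log_mul (by norm_num) (by norm_num), Real.log_pow] at h2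
      push_cast at h2
      have h4 : Real.log 33 ≤ 4 := by
        rw [Real.log_le_iff_le_exp (by norm_num)]
        have h5 : (2.7 : ℝ) ≤ Real.exp 1 := by
          have := Real.exp_one_gt_d9
          linarith only [this]
        have h6 : Real.exp 4 = Real.exp 1 ^ 4 := by rw [← Real.exp_nat_mul]; norm_num
        rw [h6]
        have h7 : (2.7 : ℝ) ^ 4 ≤ Real.exp 1 ^ 4 := pow_le_pow_left₀ (by norm_num) h5 4
        refine le_trans ?_ h7
        norm_num
      exact h4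
    push_cast at h1
    linarith only [h1, h33]
  have hNM : N * M ≤ Q ^ (l + 2) := by
    refine (nat_lt_of_log (Nat.mul_pos hN1 hM1) (Nat.pow_pos (by omega)) ?_).le
    have hM0 : (0 : ℝ) < M := by exact_mod_cast hM1
    push_cast
    rw [Real.log_mul hN0.ne' hM0.ne', Real.log_pow, ← hLdef]
    push_cast
    have h1 : (l : ℝ) * gl l ≤ l * L := by
      refine mul_le_mul_of_nonneg_left ?_ (Nat.cast_nonneg l)
      linarith only [hgl, hδεL, hεL, hL0]
    linarith only [hlogN, hlogM, h1, hE1, hE3, hεL]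
  obtain ⟨ρ, hρ⟩ : ∃ ρ : ℝ, ρ = Real.exp (-(s * L + 1 / 4 * (ε * L))) := ⟨_, rfl⟩
  have hρ0 : 0 < ρ := by rw [hρ]; exact Real.exp_pos _
  obtain ⟨𝒬, h𝒬⟩ : ∃ 𝒬 : Finset ℕ, ∀ q, q ∈ 𝒬 ↔ (Q ≤ q ∧ q ≤ 2 * Q) ∧ q.Prime :=
    ⟨(Icc Q (2 * Q)).filter Nat.Prime, fun q => by rw [mem_filter, mem_Icc]⟩
  obtain ⟨𝓔, hE, hgood⟩ := excv (T := T) (N := N) (M := M) (h := l + 2) (𝒬 := 𝒬) (ρ := ρ) hr hQ2
    (fun q hq => ⟨((h𝒬 q).1 hq).2, ((h𝒬 q).1 hq).1.1⟩) (fun n hn => (h𝓜 n hn).2.1) hN1 hNM hU1 hsum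
  refine ⟨𝓔, ?_, fun q _ hq hq1 hq2 hqE H hH => ?_⟩
  · rw [Real.rpow_def_of_pos hQ0, ← hLdef]
    have h1 : ((l + 2 : ℕ) : ℝ) * (T : ℝ) ^ 2 * (1 + Real.log N) * Δ ≤ Real.exp (L * (2 * θ + s + ε)) * ρ := by
      have hlN0 : 0 ≤ Real.log N := Real.log_natCast_nonneg N
      rw [hρ, ← Real.exp_add, ← Real.log_le_iff_le_exp (by positivity), Real.log_mul (by positivity) (by positivity),
        Real.log_mul (by positivity) (by positivity), Real.log_mul (by positivity) (by positivity), Real.log_pow, hlogΔ]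
      have h2 : Real.log ((l + 2 : ℕ) : ℝ) ≤ Real.log L := by
        refine Real.log_le_log (by positivity) ?_
        push_cast
        linarith only [hlgl, hgl, hδεL, hεL, hE1]
      have h3 : Real.log (1 + Real.log N) ≤ Real.log 2 + Real.log L := by
        rw [← Real.log_mul (by norm_num) hL0.ne']
        refine Real.log_le_log (by positivity) ?_
        linarith only [hlogN, hE3, hεL, hE1]
      push_cast at h2 ⊢
      linarith only [h2, h3, hlogT, hgl, hδεL, hE3, hlog2, hεL0]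
    have h2 : (#𝓔 : ℝ) * ρ ≤ Real.exp (L * (2 * θ + s + ε)) * ρ := hE.trans h1
    exact le_of_mul_le_mul_right h2 hρ0
  · have hSS := hgood q ((h𝒬 q).2 ⟨⟨hq1, hq2⟩, hq⟩) hqE
    have hq0 : (0 : ℝ) < q := by exact_mod_cast hq.pos
    have hq1' : (Q : ℝ) ≤ q := by exact_mod_cast hq1
    have hq2' : (q : ℝ) ≤ 2 * Q := by exact_mod_cast hq2
    obtain ⟨Lq, hLq⟩ : ∃ Lq, Lq = Real.log q := ⟨_, rfl⟩
    have hLLq : L ≤ Lq := by
      rw [hLdef, hLq]
      exact Real.log_le_log hQ0 hq1'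
    have hLq2' : Lq ≤ Real.log 2 + L := by
      rw [hLq, ← hlog2Q]
      exact Real.log_le_log hq0 hq2'
    have hLq2 : Lq ≤ 2 * L := by linarith only [hLq2', hlog2, hE1]
    have hLq0 : 0 < Lq := by linarith only [hL0, hLLq]
    have hT : H.index ≤ T := by
      rw [hTdef]
      refine Nat.le_floor (hH.trans ?_)
      exact Real.rpow_le_rpow hq0.le hq2' hθ
    have hqne : q ≠ 2 := by
      rintro rfl
      push_cast at hLq
      linarith only [hlog2, hLq, hLLq, hE1]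
    have hnum := numeric (by omega) hgl hgl2
    have hcomp := compare hδ0 (by linarith only [hδ1]) (by linarith only [hE1]) hLLq hLq2 hE4
    have hM' : ∀ n ∈ 𝓜, 0 < n ∧ n.Coprime q := by
      intro n hn
      refine ⟨(h𝓜 n hn).1, ?_⟩
      rw [Nat.coprime_comm, hq.coprime_iff_not_dvd]
      intro hd
      have h1 := (h𝓜 n hn).2.2 q hq hd
      have h2 : Real.exp (4 * l) < Real.exp L :=
        Real.exp_lt_exp.2 (by linarith only [hlgl, hgl, hδεL, hεL, hL0])
      rw [hexpL] at h2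
      linarith only [h1, h2, hq1']
    have hU0' : 2 ^ nb l / 2 * U1 𝓜 r ≤ U0 𝓜 r N := by
      refine hU0 N ?_
      have h1 : Real.exp (gl l) ≤ Real.exp L := Real.exp_le_exp.2 (by linarith only [hgl, hδεL, hεL, hL0])
      rw [hexpL] at h1
      linarith only [h1, hQN]
    have hN4 : 4 * (q : ℝ) * Real.log q ^ 2 ≤ N := by
      refine le_trans ?_ hNge
      rw [← hLq, hlog2Q]
      have h1 : Lq ^ 2 ≤ (Real.log 2 + L) ^ 2 := pow_le_pow_left₀ hLq0.le hLq2' 2
      calc 4 * (q : ℝ) * Lq ^ 2 ≤ 4 * (2 * Q) * (Real.log 2 + L) ^ 2 :=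
            mul_le_mul (mul_le_mul_of_nonneg_left hq2' (by norm_num)) h1 (by positivity) (by positivity)
        _ = _ := by ring
    have hTN : T * Δ * (4 * √N / q) ≤ 1 / 16 := by
      have h1 : √(N : ℝ) ≤ 6 * √Q * L := by
        rw [show 6 * √(Q : ℝ) * L = √((6 * √(Q : ℝ) * L) ^ 2) by rw [Real.sqrt_sq (by positivity)]]
        refine Real.sqrt_le_sqrt (hNle.trans ?_)
        rw [mul_pow, mul_pow, Real.sq_sqrt hQ0.le]
        have : 0 ≤ (Q : ℝ) * L ^ 2 := by positivity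
        linarith only [this]
      have h2 : (T : ℝ) * Δ * (4 * √N / q) ≤ 24 * T * Δ * L * (√Q / Q) := by
        calc (T : ℝ) * Δ * (4 * √N / q) = 4 * (T * Δ) * √N / q := by ring
          _ ≤ 4 * (T * Δ) * (6 * √Q * L) / Q := by
              refine div_le_div₀ (by positivity) (mul_le_mul_of_nonneg_left h1 (by positivity)) hQ0 hq1'
          _ = _ := by ring
      refine h2.trans ?_
      have h3 : √(Q : ℝ) / Q = Real.exp (-(L / 2)) := by
        rw [Real.sqrt_div_self', Real.sqrt_eq_rpow, Real.rpow_def_of_pos hQ0, one_div, ← Real.exp_neg, ← hLdef]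
        congr 1
        ring
      rw [h3]
      have h4 : 24 * (T : ℝ) * Δ * L ≤ Real.exp (4 + (θ * L + 1) + gl l / 2 + Real.log L) := by
        rw [← Real.log_le_iff_le_exp (by positivity), Real.log_mul (by positivity) (by positivity),
          Real.log_mul (by positivity) (by positivity), Real.log_mul (by positivity) (by positivity), hlogΔ]
        have h24 : Real.log 24 ≤ 4 := by
          have h5 : Real.log 24 ≤ Real.log (2 ^ 5) := Real.log_le_log (by norm_num) (by norm_num)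
          rw [Real.log_pow] at h5
          push_cast at h5
          linarith only [h5, hlog2]
        linarith only [h24, hlogT]
      calc 24 * (T : ℝ) * Δ * L * Real.exp (-(L / 2)) ≤
          Real.exp (4 + (θ * L + 1) + gl l / 2 + Real.log L) * Real.exp (-(L / 2)) :=
            mul_le_mul_of_nonneg_right h4 (Real.exp_pos _).le
        _ = Real.exp (4 + (θ * L + 1) + gl l / 2 + Real.log L + -(L / 2)) := by rw [← Real.exp_add]
        _ ≤ Real.exp (-3) := by
            refine Real.exp_le_exp.2 ?_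
            linarith only [hgl, hδεL, hE3, hεL0, hlL0, hθL]
        _ ≤ 1 / 16 := by
            rw [Real.exp_neg, one_div]
            refine inv_anti₀ (by norm_num) ?_
            rw [← Real.log_le_iff_le_exp (by norm_num)]
            exact log16
    have hmost := most_one hq hqne (l := l) hr hM' hU1 hsum hN1 hN4 hU0' hSS ((Real.exp_pos _).le.trans hnum) H hT
      (by linarith only [hΔ1]) hTN
    have hsub : {ψ : DirichletCharacter ℂ q | ∀ χ : DirichletCharacter ℂ q, ψ⁻¹ * χ ∈ H → χ ≠ 1 →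
          ‖χ.LFunction (1 / 2)‖ < Real.exp (√(δ / 4) / 10000 *
            √(Real.log q * Real.log (Real.log (Real.log q)) / Real.log (Real.log q)))} ⊆
        {ψ : DirichletCharacter ℂ q | ∀ χ : DirichletCharacter ℂ q, ψ⁻¹ * χ ∈ H → χ ≠ 1 →
          ‖χ.LFunction (1 / 2)‖ < 2 ^ nb l / 4 - 1} := by
      intro ψ hψ χ h1 h2
      refine (hψ χ h1 h2).trans_le (le_trans ?_ hnum)
      rw [← hLq]
      exact Real.exp_le_exp.2 hcomp
    have hcard : ({ψ : DirichletCharacter ℂ q | ∀ χ : DirichletCharacter ℂ q, ψ⁻¹ * χ ∈ H → χ ≠ 1 →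
          ‖χ.LFunction (1 / 2)‖ < Real.exp (√(δ / 4) / 10000 *
            √(Real.log q * Real.log (Real.log (Real.log q)) / Real.log (Real.log q)))}.ncard : ℝ) ≤
        ({ψ : DirichletCharacter ℂ q | ∀ χ : DirichletCharacter ℂ q, ψ⁻¹ * χ ∈ H → χ ≠ 1 →
          ‖χ.LFunction (1 / 2)‖ < 2 ^ nb l / 4 - 1}.ncard : ℝ) := by
      exact_mod_cast Set.ncard_le_ncard hsub (Set.toFinite _)
    have hfirst : ({ψ : DirichletCharacter ℂ q | ∀ χ : DirichletCharacter ℂ q, ψ⁻¹ * χ ∈ H → χ ≠ 1 →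
          ‖χ.LFunction (1 / 2)‖ < Real.exp (√(δ / 4) / 10000 *
            √(Real.log q * Real.log (Real.log (Real.log q)) / Real.log (Real.log q)))}.ncard : ℝ) ≤
        (q : ℝ) ^ (1 - s) := ?_
    · refine ⟨hfirst, fun hθs ψ => ?_⟩
      by_contra hcon
      push Not at hcon
      have h1 := coset_bad hq hcon
      have h2 : (H.index : ℝ) * ({ψ : DirichletCharacter ℂ q | ∀ χ : DirichletCharacter ℂ q, ψ⁻¹ * χ ∈ H → χ ≠ 1 →
          ‖χ.LFunction (1 / 2)‖ < Real.exp (√(δ / 4) / 10000 *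
            √(Real.log q * Real.log (Real.log (Real.log q)) / Real.log (Real.log q)))}.ncard : ℝ) ≤
          (q : ℝ) ^ θ * (q : ℝ) ^ (1 - s) :=
        mul_le_mul hH hfirst (Nat.cast_nonneg _) (by positivity)
      have h3 : (q : ℝ) ^ θ * (q : ℝ) ^ (1 - s) = Real.exp (Lq - (s - θ) * Lq) := by
        rw [← Real.rpow_add hq0, Real.rpow_def_of_pos hq0, ← hLq]
        congr 1
        ring
      have h4 : (q : ℝ) = Real.exp Lq := by rw [hLq, Real.exp_log hq0]
      have h5 : 1 ≤ (s - θ) * Lq := by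
        have hst : 0 < s - θ := by linarith only [hθs]
        have h6 : 1 ≤ (s - θ) * L := by
          rw [div_le_iff₀ hst] at hE5
          linarith only [hE5]
        exact h6.trans (mul_le_mul_of_nonneg_left hLLq hst.le)
      have h6 : Real.exp (Lq - (s - θ) * Lq) ≤ Real.exp Lq * Real.exp (-1) := by
        rw [← Real.exp_add]
        exact Real.exp_le_exp.2 (by linarith only [h5])
      have h7 : Real.exp (-1) ≤ 1 / 2 := by
        rw [Real.exp_neg, one_div]
        refine inv_anti₀ (by norm_num) ?_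
        have := Real.exp_one_gt_d9
        linarith only [this]
      have h8 : Real.exp Lq * Real.exp (-1) ≤ Real.exp Lq * (1 / 2) :=
        mul_le_mul_of_nonneg_left h7 (Real.exp_pos _).le
      have h9 : (300 : ℝ) ≤ q := by
        rw [h4]
        have := Real.add_one_le_exp Lq
        linarith only [this, hE1, hLLq]
      rw [h3] at h2
      rw [← h4] at h8 h6
      linarith only [h1, h2, h6, h8, h9]
    refine (hcard.trans hmost).trans ?_
    rw [Real.rpow_def_of_pos hq0, ← hLq]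
    have h1 : 64 * (q : ℝ) * Δ * ((2 + 2 * N / q) * ρ) ≤ 4352 * q * Δ * L ^ 2 * ρ := by
      have h2 : 2 + 2 * (N : ℝ) / q ≤ 68 * L ^ 2 := by
        have h3 : 2 * (N : ℝ) / q ≤ 66 * L ^ 2 := by
          rw [div_le_iff₀ hq0]
          calc 2 * (N : ℝ) ≤ 2 * (33 * Q * L ^ 2) := mul_le_mul_of_nonneg_left hNle (by norm_num)
            _ = 66 * L ^ 2 * Q := by ring
            _ ≤ 66 * L ^ 2 * q := mul_le_mul_of_nonneg_left hq1' (by positivity)
        have h4 : (1 : ℝ) ≤ L ^ 2 := by nlinarith only [hE1]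
        linarith only [h3, h4]
      calc 64 * (q : ℝ) * Δ * ((2 + 2 * N / q) * ρ) ≤ 64 * (q : ℝ) * Δ * (68 * L ^ 2 * ρ) := by
            refine mul_le_mul_of_nonneg_left (mul_le_mul_of_nonneg_right h2 hρ0.le) ?_
            have : 0 ≤ Δ := by linarith only [hΔ1]
            positivity
        _ = _ := by ring
    refine h1.trans ?_
    have hΔ0 : 0 < Δ := by linarith only [hΔ1]
    rw [← Real.log_le_iff_le_exp (by positivity), Real.log_mul (by positivity) (by positivity),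
      Real.log_mul (by positivity) (by positivity), Real.log_mul (by positivity) (by positivity),
      Real.log_mul (by positivity) (by positivity), Real.log_pow, hlogΔ, ← hLq, hρ, Real.log_exp]
    have h4352 : Real.log 4352 ≤ 9.1 := by
      have h5 : Real.log 4352 ≤ Real.log (2 ^ 13) := Real.log_le_log (by norm_num) (by norm_num)
      rw [Real.log_pow] at h5
      push_cast at h5
      linarith only [h5, hlog2]
    have h5 : s * Lq ≤ s * L + 1 := by
      have h6 := mul_le_mul_of_nonneg_left hLq2' hs.le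
      have h7 : s * Real.log 2 ≤ 1 * 1 :=
        mul_le_mul hs1.le (by linarith only [hlog2]) (Real.log_nonneg (by norm_num)) (by norm_num)
      linarith only [h6, h7]
    push_cast
    linarith only [h4352, h5, hgl, hδεL, hE3, hεL0]

end Pool.Agent.Q28.CV
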