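import Pool.Agent.Q28.CV.Avg

/-!
# The good cosets
-/

set_option autoImplicit false
set_option linter.unusedSectionVars false

namespace Pool.Agent.Q28.CV

open Finset ComplexConjugate Pool.Agent.Q28.CS Pool.Agent.Q28.CU Pool.Agent.Q28.SG

variable {q : ℕ} [NeZero q] {𝓜 : Finset ℕ} {r : ℕ → ℝ}

lemma Hs_pos (H : Subgroup (DirichletCharacter ℂ q)) : (0 : ℝ) < #(Hs H) := by
  have : 0 < #(Hs H) := card_pos.2 ⟨1, (mem_Hs H 1).2 H.one_mem⟩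
  exact_mod_cast this

open Classical in
/-- the number of the bad characters -/
lemma bad_le (hq : q.Prime) (H : Subgroup (DirichletCharacter ℂ q)) (hr : ∀ n, 0 ≤ r n)
    (h𝓜 : ∀ n ∈ 𝓜, 0 < n ∧ n.Coprime q) (hU1 : 0 < U1 𝓜 r) {Δ ρ : ℝ}
    (hΔ : (∑ n ∈ 𝓜, r n) ^ 2 ≤ Δ * U1 𝓜 r) {T N N' : ℕ} (hN : N' ≤ N) (hT : Nat.card (orth H) ≤ T)
    (hS : SV T N 𝓜 r q ≤ ρ * U1 𝓜 r) :
    (#((univ : Finset (DirichletCharacter ℂ q)).filter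
      (fun ψ => #(Hs H) * U1 𝓜 r / 4 < ‖GG H N' 𝓜 r ψ‖)) : ℝ) ≤ 32 * q * Δ * ((2 + 2 * N / q) * ρ) := by
  have hh0 := Hs_pos H
  have hq0 : (0 : ℝ) < q := by exact_mod_cast hq.pos
  set 𝓑 := (univ : Finset (DirichletCharacter ℂ q)).filter
      (fun ψ => #(Hs H) * U1 𝓜 r / 4 < ‖GG H N' 𝓜 r ψ‖) with h𝓑
  have h1 : (#𝓑 : ℝ) * (#(Hs H) * U1 𝓜 r / 4) ^ 2 ≤ ∑ ψ : DirichletCharacter ℂ q, ‖GG H N' 𝓜 r ψ‖ ^ 2 := by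
    rw [← nsmul_eq_mul, ← sum_const]
    refine le_trans (sum_le_sum fun ψ hψ => ?_)
      (sum_le_sum_of_subset_of_nonneg (filter_subset _ _) fun ψ _ _ => by positivity)
    rw [h𝓑, mem_filter] at hψ
    exact pow_le_pow_left₀ (by positivity) hψ.2.le 2
  have h2 := mean_sq hq H hr h𝓜 N'
  have h3 : ∑ x ∈ (off N' 𝓜).filter (fun x => Rel (orth H) (x.1 * x.2.2) x.2.1), vv r x ≤ ρ * U1 𝓜 r := by
    refine le_trans (sum_le_sum_of_subset_of_nonneg ?_ fun x _ _ => vv_nonneg hr x) ((relv_le hr hT).trans hS)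
    intro x hx
    rw [mem_filter] at hx ⊢
    refine ⟨?_, hx.2⟩
    obtain ⟨a, b, c, d⟩ := mem_off hx.1
    rw [off, mem_filter, mem_product, mem_product, mem_Icc]
    exact ⟨⟨⟨a.1, a.2.trans hN⟩, b, c⟩, d⟩
  have hρU : 0 ≤ ρ * U1 𝓜 r := le_trans (sum_nonneg fun x _ => vv_nonneg hr x) h3
  have hN'' : (N' : ℝ) ≤ N := by exact_mod_cast hN
  have hR : 0 ≤ (∑ n ∈ 𝓜, r n) ^ 2 := sq_nonneg _
  have h4 : (2 + 2 * (N' : ℝ) / q) * ∑ x ∈ (off N' 𝓜).filter (fun x => Rel (orth H) (x.1 * x.2.2) x.2.1), vv r x ≤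
      (2 + 2 * (N : ℝ) / q) * (ρ * U1 𝓜 r) := by
    refine mul_le_mul ?_ h3 (sum_nonneg fun x _ => vv_nonneg hr x) (by positivity)
    have := div_le_div_of_nonneg_right (mul_le_mul_of_nonneg_left hN'' (by norm_num : (0 : ℝ) ≤ 2)) hq0.le
    linarith only [this]
  have h5 : 2 * q * (#(Hs H) : ℝ) ^ 2 * (∑ n ∈ 𝓜, r n) ^ 2 * ((2 + 2 * (N' : ℝ) / q) *
      ∑ x ∈ (off N' 𝓜).filter (fun x => Rel (orth H) (x.1 * x.2.2) x.2.1), vv r x) ≤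
      2 * q * (#(Hs H) : ℝ) ^ 2 * (Δ * U1 𝓜 r) * ((2 + 2 * (N : ℝ) / q) * (ρ * U1 𝓜 r)) := by
    refine mul_le_mul (mul_le_mul_of_nonneg_left hΔ (by positivity)) h4 ?_ ?_
    · exact mul_nonneg (by positivity) (sum_nonneg fun x _ => vv_nonneg hr x)
    · have := hR.trans hΔ
      positivity
  have h6 := h1.trans (h2.trans h5)
  have h7 : 0 < (#(Hs H) : ℝ) ^ 2 * U1 𝓜 r ^ 2 := by positivity
  refine le_of_mul_le_mul_right ?_ h7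
  calc (#𝓑 : ℝ) * ((#(Hs H) : ℝ) ^ 2 * U1 𝓜 r ^ 2) = 16 * ((#𝓑 : ℝ) * (#(Hs H) * U1 𝓜 r / 4) ^ 2) := by ring
    _ ≤ 16 * (2 * q * (#(Hs H) : ℝ) ^ 2 * (Δ * U1 𝓜 r) * ((2 + 2 * (N : ℝ) / q) * (ρ * U1 𝓜 r))) :=
        mul_le_mul_of_nonneg_left h6 (by norm_num)
    _ = _ := by ring

/-- the resonance inequality in a good coset -/
lemma good_coset (hq : q.Prime) (hq2 : q ≠ 2) (H : Subgroup (DirichletCharacter ℂ q)) (ψ : DirichletCharacter ℂ q)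
    {N : ℕ} (hr : ∀ n, 0 ≤ r n) (h𝓜 : ∀ n ∈ 𝓜, 0 < n ∧ n.Coprime q) (hU1 : 0 < U1 𝓜 r) {Δ V : ℝ}
    (hΔ : (∑ n ∈ 𝓜, r n) ^ 2 ≤ Δ * U1 𝓜 r) (hN1 : 1 ≤ N) (hN : 4 * q * Real.log q ^ 2 ≤ N)
    (hG : ‖GG H N 𝓜 r ψ‖ ≤ #(Hs H) * U1 𝓜 r / 4) (hG1 : ‖GG H 1 𝓜 r ψ‖ ≤ #(Hs H) * U1 𝓜 r / 4)
    (hV : ∀ χ ∈ cs H ψ, χ ≠ 1 → ‖χ.LFunction (1 / 2)‖ ≤ V) (hV0 : 0 ≤ V) :
    U0 𝓜 r N - 1 / 4 * U1 𝓜 r ≤ ((V + 1) * (5 / 4) + Nat.card (orth H) * Δ * (4 * √N / q)) * U1 𝓜 r := by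
  classical
  have hh0 := Hs_pos H
  obtain ⟨hh, hhh⟩ : ∃ hh : ℝ, hh = (#(Hs H) : ℝ) := ⟨_, rfl⟩
  obtain ⟨k₀, hk₀⟩ : ∃ k₀ : ℝ, k₀ = ((Nat.card (orth H) : ℕ) : ℝ) := ⟨_, rfl⟩
  rw [← hhh] at hh0 hG hG1
  rw [← hk₀]
  have hq0 : (0 : ℝ) < q := by exact_mod_cast hq.pos
  have hq3 : 3 ≤ q := by
    have := hq.two_le
    omega
  have hhk : hh * k₀ = q - 1 := by
    have h1 := card_orth (mem_Hs H)
    rw [Nat.totient_prime hq] at h1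
    have h2 : ((#(Hs H) * Nat.card (orth H) : ℕ) : ℝ) = ((q - 1 : ℕ) : ℝ) := by rw [h1]
    rw [Nat.cast_sub hq.one_lt.le] at h2
    push_cast at h2
    rw [hhh, hk₀]
    exact h2
  obtain ⟨R1, hR1⟩ : ∃ R1 : ℝ, R1 = ∑ n ∈ 𝓜, r n := ⟨_, rfl⟩
  have hlow : hh * (U0 𝓜 r N - 1 / 4 * U1 𝓜 r) ≤
      (∑ χ ∈ cs H ψ, SG.LN N χ * (RD 𝓜 r χ * conj (RD 𝓜 r χ))).re := by
    rw [split ψ N h𝓜, Complex.add_re, Complex.ofReal_re, ← hhh]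
    have := (abs_le.1 ((Complex.abs_re_le_norm (GG H N 𝓜 r ψ)).trans hG)).1
    linarith only [this]
  have hsq : ∑ χ ∈ cs H ψ, ‖RD 𝓜 r χ‖ ^ 2 ≤ hh * (5 / 4 * U1 𝓜 r) := by
    rw [split_one ψ h𝓜, ← hhh]
    have := (Complex.re_le_norm (GG H 1 𝓜 r ψ)).trans hG1
    linarith only [this]
  have hup : (∑ χ ∈ cs H ψ, SG.LN N χ * (RD 𝓜 r χ * conj (RD 𝓜 r χ))).re ≤
      (V + 1) * (hh * (5 / 4 * U1 𝓜 r)) + 2 * √N * (Δ * U1 𝓜 r) := by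
    rw [Complex.re_sum]
    have h5 : ∀ χ ∈ cs H ψ, (SG.LN N χ * (RD 𝓜 r χ * conj (RD 𝓜 r χ))).re ≤
        (V + 1) * ‖RD 𝓜 r χ‖ ^ 2 + if χ = 1 then 2 * √N * R1 ^ 2 else 0 := by
      intro χ hχ
      have h6 : ‖SG.LN N χ * (RD 𝓜 r χ * conj (RD 𝓜 r χ))‖ = ‖SG.LN N χ‖ * ‖RD 𝓜 r χ‖ ^ 2 := by
        rw [norm_mul, norm_mul, Complex.norm_conj]
        ring
      refine (Complex.re_le_norm _).trans ?_
      rw [h6]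
      split_ifs with hc
      · have h7 := SG.LN_norm_le N χ
        have h8 : ‖RD 𝓜 r χ‖ ^ 2 ≤ R1 ^ 2 := by
          rw [hR1]
          exact pow_le_pow_left₀ (norm_nonneg _) (RD_le hr χ) 2
        have h9 : ‖SG.LN N χ‖ * ‖RD 𝓜 r χ‖ ^ 2 ≤ 2 * √N * R1 ^ 2 :=
          mul_le_mul h7 h8 (by positivity) (by positivity)
        have h10 : 0 ≤ (V + 1) * ‖RD 𝓜 r χ‖ ^ 2 := by positivity
        linarith
      · rw [add_zero]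
        refine mul_le_mul_of_nonneg_right ?_ (by positivity)
        have h7 := SG.approx hq hq2 hc hN1 hN
        have h8 : ‖SG.LN N χ‖ ≤ ‖χ.LFunction (1 / 2)‖ + ‖χ.LFunction (1 / 2) - SG.LN N χ‖ := by
          have := norm_sub_le (χ.LFunction (1 / 2)) (χ.LFunction (1 / 2) - SG.LN N χ)
          rwa [sub_sub_cancel] at this
        have h9 := hV χ hχ hc
        linarith
    refine (sum_le_sum h5).trans ?_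
    rw [sum_add_distrib, ← mul_sum]
    refine add_le_add (mul_le_mul_of_nonneg_left hsq (by linarith)) ?_
    rw [sum_ite_eq' (cs H ψ) 1]
    rw [← hR1] at hΔ
    split_ifs
    · exact mul_le_mul_of_nonneg_left hΔ (by positivity)
    · have h6 : 0 ≤ Δ * U1 𝓜 r := (sq_nonneg R1).trans hΔ
      positivity
  have hΔU : 0 ≤ Δ * U1 𝓜 r := (sq_nonneg _).trans hΔ
  have hk₀0 : 0 ≤ k₀ := by
    rw [hk₀]
    exact Nat.cast_nonneg _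
  have hq1 : (q : ℝ) ≤ 2 * (hh * k₀) := by
    have : (3 : ℝ) ≤ q := by exact_mod_cast hq3
    rw [hhk]
    linarith
  have h4 : 2 * √N * (Δ * U1 𝓜 r) ≤ hh * (k₀ * Δ * (4 * √N / q) * U1 𝓜 r) := by
    have h5 : (1 : ℝ) ≤ 2 * (hh * k₀) / q := by
      rw [le_div_iff₀ hq0, one_mul]
      exact hq1
    have h6 : 0 ≤ 2 * √N * (Δ * U1 𝓜 r) := by positivity
    calc 2 * √N * (Δ * U1 𝓜 r) = 2 * √N * (Δ * U1 𝓜 r) * 1 := (mul_one _).symm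
      _ ≤ 2 * √N * (Δ * U1 𝓜 r) * (2 * (hh * k₀) / q) := mul_le_mul_of_nonneg_left h5 h6
      _ = _ := by ring
  have h5 : hh * (U0 𝓜 r N - 1 / 4 * U1 𝓜 r) ≤
      hh * (((V + 1) * (5 / 4) + k₀ * Δ * (4 * √N / q)) * U1 𝓜 r) := by
    refine (hlow.trans hup).trans ?_
    have e : hh * (((V + 1) * (5 / 4) + k₀ * Δ * (4 * √N / q)) * U1 𝓜 r) =
        (V + 1) * (hh * (5 / 4 * U1 𝓜 r)) + hh * (k₀ * Δ * (4 * √N / q) * U1 𝓜 r) := by ring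
    rw [e]
    linarith only [h4]
  exact le_of_mul_le_mul_left h5 hh0

/-- one prime -/
theorem most_one (hq : q.Prime) (hq2 : q ≠ 2) {T N l : ℕ} {Δ ρ : ℝ} (hr : ∀ n, 0 ≤ r n)
    (h𝓜 : ∀ n ∈ 𝓜, 0 < n ∧ n.Coprime q) (hU1 : 0 < U1 𝓜 r)
    (hΔ : (∑ n ∈ 𝓜, r n) ^ 2 ≤ Δ * U1 𝓜 r) (hN1 : 1 ≤ N) (hN : 4 * q * Real.log q ^ 2 ≤ N)
    (hU0 : 2 ^ nb l / 2 * U1 𝓜 r ≤ U0 𝓜 r N) (hS : SV T N 𝓜 r q ≤ ρ * U1 𝓜 r)
    (hV : 0 ≤ (2 : ℝ) ^ nb l / 4 - 1) (H : Subgroup (DirichletCharacter ℂ q)) (hH : H.index ≤ T)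
    (hΔ0 : 0 ≤ Δ) (hTN : T * Δ * (4 * √N / q) ≤ 1 / 16) :
    ({ψ : DirichletCharacter ℂ q | ∀ χ : DirichletCharacter ℂ q, ψ⁻¹ * χ ∈ H → χ ≠ 1 →
      ‖χ.LFunction (1 / 2)‖ < 2 ^ nb l / 4 - 1}.ncard : ℝ) ≤ 64 * q * Δ * ((2 + 2 * N / q) * ρ) := by
  classical
  have hidx := index_eq H (mem_Hs H)
  rw [← hidx] at hH
  have hb1 := bad_le hq H hr h𝓜 hU1 hΔ (T := T) le_rfl hH hS
  have hb2 := bad_le hq H hr h𝓜 hU1 hΔ (T := T) hN1 hH hS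
  set 𝓑 := (univ : Finset (DirichletCharacter ℂ q)).filter
      (fun ψ => #(Hs H) * U1 𝓜 r / 4 < ‖GG H N 𝓜 r ψ‖) with h𝓑
  set 𝓑' := (univ : Finset (DirichletCharacter ℂ q)).filter
      (fun ψ => #(Hs H) * U1 𝓜 r / 4 < ‖GG H 1 𝓜 r ψ‖) with h𝓑'
  have hsub : {ψ : DirichletCharacter ℂ q | ∀ χ : DirichletCharacter ℂ q, ψ⁻¹ * χ ∈ H → χ ≠ 1 →
      ‖χ.LFunction (1 / 2)‖ < 2 ^ nb l / 4 - 1} ⊆ ((𝓑 ∪ 𝓑' : Finset _) : Set (DirichletCharacter ℂ q)) := by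
    intro ψ hψ
    rw [Set.mem_ofPred_eq] at hψ
    by_contra hcon
    rw [mem_coe, mem_union, not_or, h𝓑, h𝓑', mem_filter, mem_filter] at hcon
    have hG : ‖GG H N 𝓜 r ψ‖ ≤ #(Hs H) * U1 𝓜 r / 4 := not_lt.1 fun h => hcon.1 ⟨mem_univ _, h⟩
    have hG1 : ‖GG H 1 𝓜 r ψ‖ ≤ #(Hs H) * U1 𝓜 r / 4 := not_lt.1 fun h => hcon.2 ⟨mem_univ _, h⟩
    have hmain := good_coset hq hq2 H ψ hr h𝓜 hU1 hΔ hN1 hN hG hG1 (V := 2 ^ nb l / 4 - 1)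
      (fun χ hχ hχ1 => (hψ χ ((mem_cs H ψ χ).1 hχ) hχ1).le) hV
    have hkT : (Nat.card (orth H) : ℝ) ≤ T := by exact_mod_cast hH
    have hk : (Nat.card (orth H) : ℝ) * Δ * (4 * √N / q) ≤ 1 / 16 := by
      refine le_trans (mul_le_mul_of_nonneg_right (mul_le_mul_of_nonneg_right hkT hΔ0) (by positivity)) hTN
    have h2 : (2 ^ nb l / 2 - 1 / 4) * U1 𝓜 r ≤ ((2 ^ nb l / 4 - 1 + 1) * (5 / 4) + 1 / 16) * U1 𝓜 r := by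
      rw [sub_mul]
      refine le_trans (sub_le_sub_right hU0 _) (hmain.trans (mul_le_mul_of_nonneg_right ?_ hU1.le))
      linarith only [hk]
    have h3 := le_of_mul_le_mul_right h2 hU1
    linarith only [h3, hV]
  have h1 : {ψ : DirichletCharacter ℂ q | ∀ χ : DirichletCharacter ℂ q, ψ⁻¹ * χ ∈ H → χ ≠ 1 →
      ‖χ.LFunction (1 / 2)‖ < 2 ^ nb l / 4 - 1}.ncard ≤ #𝓑 + #𝓑' := by
    refine (Set.ncard_le_ncard hsub (finite_toSet _)).trans ?_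
    rw [Set.ncard_coe_finset]
    exact card_union_le _ _
  have h2 : ({ψ : DirichletCharacter ℂ q | ∀ χ : DirichletCharacter ℂ q, ψ⁻¹ * χ ∈ H → χ ≠ 1 →
      ‖χ.LFunction (1 / 2)‖ < 2 ^ nb l / 4 - 1}.ncard : ℝ) ≤ (#𝓑 : ℝ) + #𝓑' := by exact_mod_cast h1
  refine h2.trans ((add_le_add hb1 hb2).trans (le_of_eq ?_))
  ring

end Pool.Agent.Q28.CV
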