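import Pool.Agent.Q28.CU.Fin

/-!
# The mean square over the cosets
-/

set_option autoImplicit false
set_option linter.unusedSectionVars false

namespace Pool.Agent.Q28.CV

open Finset ComplexConjugate Pool.Agent.Q28.CS Pool.Agent.Q28.CU

variable {q : ℕ} [NeZero q] {𝓜 : Finset ℕ} {r : ℕ → ℝ}

open Classical in
/-- the elements of the subgroup -/
noncomputable def Hs (H : Subgroup (DirichletCharacter ℂ q)) : Finset (DirichletCharacter ℂ q) :=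
  univ.filter (· ∈ H)

open Classical in
/-- the elements of the coset -/
noncomputable def cs (H : Subgroup (DirichletCharacter ℂ q)) (ψ : DirichletCharacter ℂ q) :
    Finset (DirichletCharacter ℂ q) :=
  univ.filter (fun χ => ψ⁻¹ * χ ∈ H)

lemma mem_Hs (H : Subgroup (DirichletCharacter ℂ q)) : ∀ χ, χ ∈ Hs H ↔ χ ∈ H := fun χ => by
  simp [Hs]

lemma mem_cs (H : Subgroup (DirichletCharacter ℂ q)) (ψ : DirichletCharacter ℂ q) :
    ∀ χ, χ ∈ cs H ψ ↔ ψ⁻¹ * χ ∈ H := fun χ => by simp [cs]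

/-- the triples off the diagonal -/
def off (N : ℕ) (𝓜 : Finset ℕ) : Finset (ℕ × ℕ × ℕ) :=
  (Icc 1 N ×ˢ (𝓜 ×ˢ 𝓜)).filter (fun x => x.1 * x.2.2 ≠ x.2.1)

lemma mem_off {N : ℕ} {x : ℕ × ℕ × ℕ} (hx : x ∈ off N 𝓜) :
    (1 ≤ x.1 ∧ x.1 ≤ N) ∧ x.2.1 ∈ 𝓜 ∧ x.2.2 ∈ 𝓜 ∧ x.1 * x.2.2 ≠ x.2.1 := by
  rw [off, mem_filter, mem_product, mem_product, mem_Icc] at hx
  exact ⟨hx.1.1, hx.1.2.1, hx.1.2.2, hx.2⟩

/-- the terms off the diagonal -/
noncomputable def GG (H : Subgroup (DirichletCharacter ℂ q)) (N : ℕ) (𝓜 : Finset ℕ) (r : ℕ → ℝ)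
    (ψ : DirichletCharacter ℂ q) : ℂ :=
  ∑ x ∈ off N 𝓜, ((tt r x : ℝ) : ℂ) * S3 (cs H ψ) x

lemma split {H : Subgroup (DirichletCharacter ℂ q)} (ψ : DirichletCharacter ℂ q) (N : ℕ)
    (h𝓜 : ∀ n ∈ 𝓜, 0 < n ∧ n.Coprime q) :
    ∑ χ ∈ cs H ψ, SG.LN N χ * (RD 𝓜 r χ * conj (RD 𝓜 r χ)) =
      (((#(Hs H) : ℝ) * U0 𝓜 r N : ℝ) : ℂ) + GG H N 𝓜 r ψ := by
  rw [expand3, ← sum_filter_add_sum_filter_not (Icc 1 N ×ˢ (𝓜 ×ˢ 𝓜)) (fun x => x.1 * x.2.2 = x.2.1), GG, off]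
  congr 1
  rw [U0, mul_sum, Complex.ofReal_sum]
  refine sum_congr rfl fun x hx => ?_
  rw [mem_filter, mem_product, mem_product] at hx
  have h1 : S3 (cs H ψ) x = (#(Hs H) : ℂ) := by
    unfold S3
    rw [hx.2, sum_diag (h𝓜 _ hx.1.2.1).2, card_coset (mem_Hs H) (mem_cs H ψ)]
  rw [h1]
  push_cast
  ring

lemma split_one {H : Subgroup (DirichletCharacter ℂ q)} (ψ : DirichletCharacter ℂ q)
    (h𝓜 : ∀ n ∈ 𝓜, 0 < n ∧ n.Coprime q) :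
    ∑ χ ∈ cs H ψ, ‖RD 𝓜 r χ‖ ^ 2 = (#(Hs H) : ℝ) * U1 𝓜 r + (GG H 1 𝓜 r ψ).re := by
  have h1 := congrArg Complex.re (split (r := r) (H := H) ψ 1 h𝓜)
  have h2 : (∑ χ ∈ cs H ψ, SG.LN 1 χ * (RD 𝓜 r χ * conj (RD 𝓜 r χ))).re = ∑ χ ∈ cs H ψ, ‖RD 𝓜 r χ‖ ^ 2 := by
    rw [Complex.re_sum]
    refine sum_congr rfl fun χ _ => ?_
    have h3 : SG.LN 1 χ = 1 := by simp [SG.LN]
    rw [h3, one_mul, Complex.mul_conj, Complex.normSq_eq_norm_sq, Complex.ofReal_re]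
  have h3 : U0 𝓜 r 1 = U1 𝓜 r := by
    unfold U0 U1
    symm
    refine sum_bij (fun n _ => (1, n, n)) ?_ ?_ ?_ ?_
    · intro n hn
      rw [mem_filter, mem_product, mem_product, mem_Icc]
      exact ⟨⟨⟨le_rfl, le_rfl⟩, hn, hn⟩, by simp⟩
    · intro a _ b _ h
      simp only [Prod.mk.injEq] at h
      exact h.2.1
    · intro x hx
      rw [mem_filter, mem_product, mem_product, mem_Icc] at hx
      obtain ⟨⟨⟨h4, h5⟩, h6, h7⟩, h8⟩ := hx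
      have h9 : x.1 = 1 := le_antisymm h5 h4
      rw [h9, one_mul] at h8
      refine ⟨x.2.1, h6, ?_⟩
      ext
      · exact h9.symm
      · rfl
      · exact h8.symm
    · intro n _
      unfold tt
      simp [sq]
  rw [h2, Complex.add_re, Complex.ofReal_re, h3] at h1
  exact h1

/-- the character factors out -/
lemma S3_cs {H : Subgroup (DirichletCharacter ℂ q)} (ψ : DirichletCharacter ℂ q) (x : ℕ × ℕ × ℕ) :
    S3 (cs H ψ) x = (ψ ((x.1 * x.2.2 : ℕ) : ZMod q) * conj (ψ ((x.2.1 : ℕ) : ZMod q))) * S3 (Hs H) x := by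
  unfold S3
  rw [mul_sum]
  refine (sum_equiv (Equiv.mulLeft ψ) ?_ ?_).symm
  · intro χ
    rw [mem_Hs, mem_cs, Equiv.coe_mulLeft, inv_mul_cancel_left]
  · intro χ _
    rw [Equiv.coe_mulLeft, MulChar.mul_apply, MulChar.mul_apply, map_mul]
    ring

lemma S3_Hs {H : Subgroup (DirichletCharacter ℂ q)} (h𝓜 : ∀ n ∈ 𝓜, 0 < n ∧ n.Coprime q) {N : ℕ}
    {x : ℕ × ℕ × ℕ} (hx : x ∈ off N 𝓜) : ‖S3 (Hs H) x‖ ≤ #(Hs H) ∧ (S3 (Hs H) x ≠ 0 →
      (x.1 * x.2.2).Coprime q ∧ Rel (orth H) (x.1 * x.2.2) x.2.1) := by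
  obtain ⟨_, h3, h4, _⟩ := mem_off hx
  have hF : ∀ χ, χ ∈ Hs H ↔ (1 : DirichletCharacter ℂ q)⁻¹ * χ ∈ H := fun χ => by
    rw [mem_Hs, inv_one, one_mul]
  by_cases hc : (x.1 * x.2.2).Coprime q
  · obtain ⟨k1, k2⟩ := sum_three (mem_Hs H) hF hc (h𝓜 _ h3).2
    exact ⟨k1, fun h5 => ⟨hc, by_contra fun h6 => h5 (k2 h6)⟩⟩
  · have e2 : S3 (Hs H) x = 0 := by
      unfold S3
      refine sum_eq_zero fun χ _ => ?_
      rw [MulChar.map_nonunit χ (by rwa [ZMod.isUnit_iff_coprime]), zero_mul]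
    exact ⟨by rw [e2, norm_zero]; exact Nat.cast_nonneg _, fun h5 => absurd e2 h5⟩

/-- the pair of triples with the same ratio modulo `q` -/
def EE (q : ℕ) (x y : ℕ × ℕ × ℕ) : Prop :=
  ((x.1 * x.2.2 * y.2.1 : ℕ) : ZMod q) = ((x.2.1 * (y.1 * y.2.2) : ℕ) : ZMod q)

lemma EE_symm {x y : ℕ × ℕ × ℕ} (h : EE q x y) : EE q y x := by
  unfold EE at h ⊢
  push_cast at h ⊢
  linear_combination -h

/-- orthogonality for pairs -/
lemma pair_le {a b c d : ℕ} (hq : q.Prime) (ha : a.Coprime q) (hb : b.Coprime q) (hc : c.Coprime q) (hd : d.Coprime q) :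
    ‖∑ ψ : DirichletCharacter ℂ q, (ψ ((a : ℕ) : ZMod q) * conj (ψ ((b : ℕ) : ZMod q))) *
      conj (ψ ((c : ℕ) : ZMod q) * conj (ψ ((d : ℕ) : ZMod q)))‖ ≤ (q : ℝ) ∧
    (((a * d : ℕ) : ZMod q) ≠ ((b * c : ℕ) : ZMod q) →
      ∑ ψ : DirichletCharacter ℂ q, (ψ ((a : ℕ) : ZMod q) * conj (ψ ((b : ℕ) : ZMod q))) *
      conj (ψ ((c : ℕ) : ZMod q) * conj (ψ ((d : ℕ) : ZMod q))) = 0) := by
  classical
  have hH : ∀ χ : DirichletCharacter ℂ q, χ ∈ (univ : Finset (DirichletCharacter ℂ q)) ↔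
      χ ∈ (⊤ : Subgroup (DirichletCharacter ℂ q)) := fun χ => by simp
  have hF : ∀ χ : DirichletCharacter ℂ q, χ ∈ (univ : Finset (DirichletCharacter ℂ q)) ↔
      (1 : DirichletCharacter ℂ q)⁻¹ * χ ∈ (⊤ : Subgroup (DirichletCharacter ℂ q)) := fun χ => by simp
  have hcard : Nat.card (orth (⊤ : Subgroup (DirichletCharacter ℂ q))) = 1 := by
    rw [index_eq ⊤ hH, Subgroup.index_top]
  have hbot := Subgroup.eq_bot_of_card_eq _ hcard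
  have e1 : ∀ ψ : DirichletCharacter ℂ q, (ψ ((a : ℕ) : ZMod q) * conj (ψ ((b : ℕ) : ZMod q))) *
      conj (ψ ((c : ℕ) : ZMod q) * conj (ψ ((d : ℕ) : ZMod q))) =
      ψ ((a * d : ℕ) : ZMod q) * conj (ψ ((b * c : ℕ) : ZMod q)) := by
    intro ψ
    push_cast
    rw [map_mul, map_mul, map_mul, map_mul, Complex.conj_conj]
    ring
  rw [sum_congr rfl fun ψ _ => e1 ψ]
  obtain ⟨k1, k2⟩ := sum_three hH hF (Nat.Coprime.mul_left ha hd) (Nat.Coprime.mul_left hb hc)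
  have hcu : (#(univ : Finset (DirichletCharacter ℂ q)) : ℝ) ≤ q := by
    rw [card_univ]
    have e1 : Fintype.card (DirichletCharacter ℂ q) = q.totient := by
      rw [← Nat.card_eq_fintype_card]
      exact DirichletCharacter.card_eq_totient_of_hasEnoughRootsOfUnity ℂ q
    rw [e1, Nat.totient_prime hq]
    exact_mod_cast Nat.sub_le q 1
  refine ⟨k1.trans hcu, fun hne => k2 ?_⟩
  rintro ⟨g, hg, e⟩
  rw [hbot, Subgroup.mem_bot] at hg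
  rw [hg, Units.val_one, one_mul] at e
  exact hne e

end Pool.Agent.Q28.CV
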