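import Pool.Agent.Q28.CV.L2

/-!
# The mean square over the cosets: the bound
-/

set_option autoImplicit false
set_option linter.unusedSectionVars false

namespace Pool.Agent.Q28.CV

open Finset ComplexConjugate Pool.Agent.Q28.CS Pool.Agent.Q28.CU

variable {q : ℕ} [NeZero q] {𝓜 : Finset ℕ} {r : ℕ → ℝ}

/-- the weights of the triples in the mean square -/
noncomputable def vv (r : ℕ → ℝ) (x : ℕ × ℕ × ℕ) : ℝ := ((x.1 : ℕ) : ℝ)⁻¹ * (r x.2.1 * r x.2.2)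

lemma vv_nonneg (hr : ∀ n, 0 ≤ r n) (x : ℕ × ℕ × ℕ) : 0 ≤ vv r x :=
  mul_nonneg (by positivity) (mul_nonneg (hr _) (hr _))

open Classical in
lemma inner_le (hr : ∀ n, 0 ≤ r n) (h𝓜 : ∀ n ∈ 𝓜, 0 < n ∧ n.Coprime q) {N : ℕ} {x : ℕ × ℕ × ℕ}
    (hx : x ∈ off N 𝓜) :
    ∑ y ∈ (off N 𝓜).filter (fun y => x.1 ≤ y.1 ∧ EE q x y), tt r y ≤
      (∑ n ∈ 𝓜, r n) ^ 2 * (2 * (√(x.1 : ℝ))⁻¹ + 2 * √N / q) := by
  obtain ⟨⟨hx1, hxN⟩, hx3, hx4, _⟩ := mem_off hx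
  set X2 := (off N 𝓜).filter (fun y => x.1 ≤ y.1 ∧ EE q x y) with hX2
  have hmem : ∀ y ∈ X2, (x.1 ≤ y.1 ∧ y.1 ≤ N) ∧ y.2.1 ∈ 𝓜 ∧ y.2.2 ∈ 𝓜 ∧ EE q x y := by
    intro y hy
    rw [hX2, mem_filter] at hy
    obtain ⟨h1, h3, h4, _⟩ := mem_off hy.1
    exact ⟨⟨hy.2.1, h1.2⟩, h3, h4, hy.2.2⟩
  have e1 : ∑ y ∈ X2, tt r y = ∑ v ∈ 𝓜 ×ˢ 𝓜, ∑ y ∈ X2.filter (fun y => y.2 = v), tt r y := by
    refine (sum_fiberwise_of_maps_to (fun y hy => ?_) (tt r)).symm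
    obtain ⟨_, h3, h4, _⟩ := hmem y hy
    exact mem_product.2 ⟨h3, h4⟩
  rw [e1]
  have e2 : ∀ v ∈ 𝓜 ×ˢ 𝓜, ∑ y ∈ X2.filter (fun y => y.2 = v), tt r y ≤
      (r v.1 * r v.2) * (2 * (√(x.1 : ℝ))⁻¹ + 2 * √N / q) := by
    intro v hv
    rw [mem_product] at hv
    have hinj : Set.InjOn (fun y : ℕ × ℕ × ℕ => y.1) (X2.filter (fun y => y.2 = v) : Finset (ℕ × ℕ × ℕ)) := by
      intro y hy z hz h
      rw [mem_coe, mem_filter] at hy hz
      exact Prod.ext h (hy.2.trans hz.2.symm)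
    set Y := (X2.filter (fun y => y.2 = v)).image (fun y => y.1) with hY
    have e3 : ∑ y ∈ X2.filter (fun y => y.2 = v), tt r y = (r v.1 * r v.2) * ∑ k ∈ Y, (√(k : ℝ))⁻¹ := by
      rw [hY, sum_image hinj, mul_sum]
      refine sum_congr rfl fun y hy => ?_
      rw [mem_filter] at hy
      unfold tt
      rw [hy.2]
      ring
    rw [e3]
    refine mul_le_mul_of_nonneg_left ?_ (mul_nonneg (hr _) (hr _))
    have hYm : ∀ k ∈ Y, (x.1 ≤ k ∧ k ≤ N) ∧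
        ((k * (v.2 * x.2.1) : ℕ) : ZMod q) = ((x.1 * x.2.2 * v.1 : ℕ) : ZMod q) := by
      intro k hk
      obtain ⟨y, hy, rfl⟩ := mem_image.1 hk
      rw [mem_filter] at hy
      obtain ⟨h1, _, _, h4⟩ := hmem y hy.1
      unfold EE at h4
      rw [hy.2] at h4
      refine ⟨h1, ?_⟩
      push_cast at h4 ⊢
      linear_combination -h4
    rw [← sum_filter_add_sum_filter_not Y (fun k => k = x.1)]
    have k1 : ∑ k ∈ Y.filter (fun k => k = x.1), (√(k : ℝ))⁻¹ ≤ (√(x.1 : ℝ))⁻¹ := by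
      refine (sum_le_sum_of_subset_of_nonneg (t := {x.1}) ?_ fun k _ _ => by positivity).trans ?_
      · intro k hk
        rw [mem_filter] at hk
        exact mem_singleton.2 hk.2
      · rw [sum_singleton]
    have k2 : ∑ k ∈ Y.filter (fun k => ¬ k = x.1), (√(k : ℝ))⁻¹ ≤
        Nat.card (⊥ : Subgroup (ZMod q)ˣ) * ((√(x.1 : ℝ))⁻¹ + 2 * √N / q) := by
      refine tail_le (n := v.2 * x.2.1) (m := x.1 * x.2.2 * v.1) hx1
        (Nat.Coprime.mul_left (h𝓜 _ hv.2).2 (h𝓜 _ hx3).2) _ fun k hk => ?_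
      rw [mem_filter] at hk
      obtain ⟨h1, h2⟩ := hYm k hk.1
      refine ⟨⟨lt_of_le_of_ne h1.1 (Ne.symm hk.2), h1.2⟩, 1, Subgroup.one_mem _, ?_⟩
      rw [Units.val_one, one_mul]
      exact h2
    rw [Subgroup.card_bot, Nat.cast_one, one_mul] at k2
    linarith only [k1, k2]
  refine (sum_le_sum e2).trans (le_of_eq ?_)
  rw [← sum_mul, sum_product, sq, sum_mul_sum]

open Classical in
/-- **The mean square over all characters.** -/
theorem mean_sq (hq : q.Prime) (H : Subgroup (DirichletCharacter ℂ q)) (hr : ∀ n, 0 ≤ r n)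
    (h𝓜 : ∀ n ∈ 𝓜, 0 < n ∧ n.Coprime q) (N : ℕ) :
    ∑ ψ : DirichletCharacter ℂ q, ‖GG H N 𝓜 r ψ‖ ^ 2 ≤
      2 * q * (#(Hs H) : ℝ) ^ 2 * (∑ n ∈ 𝓜, r n) ^ 2 * ((2 + 2 * N / q) *
        ∑ x ∈ (off N 𝓜).filter (fun x => Rel (orth H) (x.1 * x.2.2) x.2.1), vv r x) := by
  set hh : ℝ := (#(Hs H) : ℝ) with hhh
  have hh0 : 0 ≤ hh := Nat.cast_nonneg _
  have hq0 : (0 : ℝ) < q := by exact_mod_cast hq.pos
  have ht0 := tt_nonneg (r := r) hr
  set f : ℕ × ℕ × ℕ → ℕ × ℕ × ℕ → ℝ := fun x y =>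
    if S3 (Hs H) x ≠ 0 ∧ S3 (Hs H) y ≠ 0 ∧ EE q x y then tt r x * tt r y * (hh ^ 2 * q) else 0 with hf
  have hf0 : ∀ x y, 0 ≤ f x y := by
    intro x y
    simp only [hf]
    split_ifs
    · have := ht0 x
      have := ht0 y
      positivity
    · exact le_rfl
  have hfs : ∀ x y, f x y = f y x := by
    intro x y
    simp only [hf]
    have : (S3 (Hs H) x ≠ 0 ∧ S3 (Hs H) y ≠ 0 ∧ EE q x y) ↔ (S3 (Hs H) y ≠ 0 ∧ S3 (Hs H) x ≠ 0 ∧ EE q y x) :=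
      ⟨fun h => ⟨h.2.1, h.1, EE_symm h.2.2⟩, fun h => ⟨h.2.1, h.1, EE_symm h.2.2⟩⟩
    by_cases h : S3 (Hs H) x ≠ 0 ∧ S3 (Hs H) y ≠ 0 ∧ EE q x y
    · rw [if_pos h, if_pos (this.1 h)]
      ring
    · rw [if_neg h, if_neg fun h' => h (this.2 h')]
  -- step 1
  have h1 : ∑ ψ : DirichletCharacter ℂ q, ‖GG H N 𝓜 r ψ‖ ^ 2 ≤ ∑ x ∈ off N 𝓜, ∑ y ∈ off N 𝓜, f x y := by
    have e0 : ∀ ψ : DirichletCharacter ℂ q, GG H N 𝓜 r ψ * conj (GG H N 𝓜 r ψ) =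
        ∑ x ∈ off N 𝓜, ∑ y ∈ off N 𝓜, (((tt r x : ℝ) : ℂ) * S3 (Hs H) x * (((tt r y : ℝ) : ℂ) * conj (S3 (Hs H) y))) *
          ((ψ ((x.1 * x.2.2 : ℕ) : ZMod q) * conj (ψ ((x.2.1 : ℕ) : ZMod q))) *
            conj (ψ ((y.1 * y.2.2 : ℕ) : ZMod q) * conj (ψ ((y.2.1 : ℕ) : ZMod q)))) := by
      intro ψ
      rw [GG, map_sum, sum_mul_sum]
      refine sum_congr rfl fun x _ => sum_congr rfl fun y _ => ?_
      rw [S3_cs, S3_cs, map_mul, map_mul, Complex.conj_ofReal]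
      ring
    have e1 : ((∑ ψ : DirichletCharacter ℂ q, ‖GG H N 𝓜 r ψ‖ ^ 2 : ℝ) : ℂ) =
        ∑ x ∈ off N 𝓜, ∑ y ∈ off N 𝓜, (((tt r x : ℝ) : ℂ) * S3 (Hs H) x * (((tt r y : ℝ) : ℂ) * conj (S3 (Hs H) y))) *
          ∑ ψ : DirichletCharacter ℂ q, ((ψ ((x.1 * x.2.2 : ℕ) : ZMod q) * conj (ψ ((x.2.1 : ℕ) : ZMod q))) *
            conj (ψ ((y.1 * y.2.2 : ℕ) : ZMod q) * conj (ψ ((y.2.1 : ℕ) : ZMod q)))) := by
      rw [Complex.ofReal_sum]
      have e2 : ∀ ψ : DirichletCharacter ℂ q, ((‖GG H N 𝓜 r ψ‖ ^ 2 : ℝ) : ℂ) =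
          GG H N 𝓜 r ψ * conj (GG H N 𝓜 r ψ) := by
        intro ψ
        rw [Complex.mul_conj, Complex.normSq_eq_norm_sq]
      rw [sum_congr rfl fun ψ _ => (e2 ψ).trans (e0 ψ), sum_comm]
      refine sum_congr rfl fun x _ => ?_
      rw [sum_comm]
      refine sum_congr rfl fun y _ => ?_
      rw [mul_sum]
    have e3 : (∑ ψ : DirichletCharacter ℂ q, ‖GG H N 𝓜 r ψ‖ ^ 2) =
        ‖((∑ ψ : DirichletCharacter ℂ q, ‖GG H N 𝓜 r ψ‖ ^ 2 : ℝ) : ℂ)‖ := by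
      rw [Complex.norm_real, Real.norm_of_nonneg]
      exact sum_nonneg fun ψ _ => by positivity
    rw [e3, e1]
    refine (norm_sum_le _ _).trans (sum_le_sum fun x hx => ?_)
    refine (norm_sum_le _ _).trans (sum_le_sum fun y hy => ?_)
    obtain ⟨a1, a2⟩ := S3_Hs (H := H) h𝓜 hx
    obtain ⟨b1, b2⟩ := S3_Hs (H := H) h𝓜 hy
    by_cases c1 : S3 (Hs H) x = 0
    · rw [c1, mul_zero, zero_mul, zero_mul, norm_zero]
      exact hf0 x y
    by_cases c2 : S3 (Hs H) y = 0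
    · rw [c2, map_zero, mul_zero, mul_zero, zero_mul, norm_zero]
      exact hf0 x y
    obtain ⟨_, hx3, _, _⟩ := mem_off hx
    obtain ⟨_, hy3, _, _⟩ := mem_off hy
    obtain ⟨p1, p2⟩ := pair_le hq (a2 c1).1 (h𝓜 _ hx3).2 (b2 c2).1 (h𝓜 _ hy3).2
    by_cases c3 : EE q x y
    · simp only [hf]
      rw [if_pos ⟨c1, c2, c3⟩, norm_mul, norm_mul, norm_mul, norm_mul, Complex.norm_real, Complex.norm_real,
        Complex.norm_conj, Real.norm_of_nonneg (ht0 x), Real.norm_of_nonneg (ht0 y)]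
      calc tt r x * ‖S3 (Hs H) x‖ * (tt r y * ‖S3 (Hs H) y‖) * _ ≤
          tt r x * hh * (tt r y * hh) * q := by
            refine mul_le_mul ?_ p1 (norm_nonneg _) ?_
            · exact mul_le_mul (mul_le_mul_of_nonneg_left a1 (ht0 x)) (mul_le_mul_of_nonneg_left b1 (ht0 y))
                (mul_nonneg (ht0 y) (norm_nonneg _)) (mul_nonneg (ht0 x) hh0)
            · exact mul_nonneg (mul_nonneg (ht0 x) hh0) (mul_nonneg (ht0 y) hh0)
        _ = _ := by ring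
    · rw [p2 c3, mul_zero, norm_zero]
      exact hf0 x y
  -- step 2
  have h2 : ∑ x ∈ off N 𝓜, ∑ y ∈ off N 𝓜, f x y ≤
      2 * ∑ x ∈ off N 𝓜, ∑ y ∈ off N 𝓜, (if x.1 ≤ y.1 then f x y else 0) := by
    have e1 : ∑ x ∈ off N 𝓜, ∑ y ∈ off N 𝓜, f x y ≤
        ∑ x ∈ off N 𝓜, ∑ y ∈ off N 𝓜, ((if x.1 ≤ y.1 then f x y else 0) + if y.1 ≤ x.1 then f y x else 0) := by
      refine sum_le_sum fun x _ => sum_le_sum fun y _ => ?_
      have g1 : 0 ≤ (if x.1 ≤ y.1 then f x y else 0) := by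
        split_ifs
        · exact hf0 x y
        · exact le_rfl
      have g2 : 0 ≤ (if y.1 ≤ x.1 then f y x else 0) := by
        split_ifs
        · exact hf0 y x
        · exact le_rfl
      rcases le_total x.1 y.1 with h | h
      · rw [if_pos h]
        linarith only [g2]
      · have e := hfs x y
        rw [if_pos h]
        linarith only [g1, e]
    refine e1.trans (le_of_eq ?_)
    simp only [sum_add_distrib]
    rw [two_mul]
    congr 1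
    rw [sum_comm]
  -- step 3
  have h3 : ∀ x ∈ off N 𝓜, ∑ y ∈ off N 𝓜, (if x.1 ≤ y.1 then f x y else 0) ≤
      if Rel (orth H) (x.1 * x.2.2) x.2.1 then
        q * hh ^ 2 * (∑ n ∈ 𝓜, r n) ^ 2 * ((2 + 2 * N / q) * vv r x) else 0 := by
    intro x hx
    obtain ⟨⟨hx1, hxN⟩, _, _, _⟩ := mem_off hx
    by_cases c1 : S3 (Hs H) x = 0
    · have e1 : ∀ y ∈ off N 𝓜, (if x.1 ≤ y.1 then f x y else 0) = 0 := by
        intro y _
        have e0 : f x y = 0 := if_neg fun h => h.1 c1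
        rw [e0, ite_self]
      rw [sum_congr rfl e1, sum_const_zero]
      split_ifs
      · have := vv_nonneg hr x
        positivity
      · exact le_rfl
    · rw [if_pos ((S3_Hs (H := H) h𝓜 hx).2 c1).2]
      have e1 : ∑ y ∈ off N 𝓜, (if x.1 ≤ y.1 then f x y else 0) ≤
          (hh ^ 2 * q * tt r x) * ∑ y ∈ (off N 𝓜).filter (fun y => x.1 ≤ y.1 ∧ EE q x y), tt r y := by
        rw [sum_filter, mul_sum]
        refine sum_le_sum fun y _ => ?_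
        have g0 : 0 ≤ hh ^ 2 * q * tt r x := by
          have := ht0 x
          positivity
        by_cases c2 : x.1 ≤ y.1
        · rw [if_pos c2]
          by_cases c3 : EE q x y
          · rw [if_pos (show x.1 ≤ y.1 ∧ EE q x y from ⟨c2, c3⟩)]
            by_cases c4 : S3 (Hs H) y = 0
            · have e0 : f x y = 0 := if_neg fun h => h.2.1 c4
              rw [e0]
              exact mul_nonneg g0 (ht0 y)
            · have e0 : f x y = tt r x * tt r y * (hh ^ 2 * q) := if_pos ⟨c1, c4, c3⟩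
              rw [e0]
              refine le_of_eq ?_
              ring
          · have e0 : f x y = 0 := if_neg fun h => c3 h.2.2
            rw [e0, if_neg fun h => c3 h.2, mul_zero]
        · rw [if_neg c2, if_neg fun h => c2 h.1, mul_zero]
      have hR : 0 ≤ (∑ n ∈ 𝓜, r n) ^ 2 := sq_nonneg _
      have hx0 : (0 : ℝ) < x.1 := by exact_mod_cast hx1
      have hxN' : (x.1 : ℝ) ≤ N := by exact_mod_cast hxN
      have e2 : tt r x * (2 * (√(x.1 : ℝ))⁻¹ + 2 * √N / q) ≤ (2 + 2 * N / q) * vv r x := by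
        unfold tt vv
        have hrr : 0 ≤ r x.2.1 * r x.2.2 := mul_nonneg (hr _) (hr _)
        have g1 : (√(x.1 : ℝ))⁻¹ * (√(x.1 : ℝ))⁻¹ = ((x.1 : ℕ) : ℝ)⁻¹ := by
          rw [← mul_inv, Real.mul_self_sqrt hx0.le]
        have g2 : (√(x.1 : ℝ))⁻¹ * √N ≤ ((x.1 : ℕ) : ℝ)⁻¹ * N := by
          have hs0 : 0 < √(x.1 : ℝ) := Real.sqrt_pos.2 hx0
          have hsN : √(x.1 : ℝ) ≤ √(N : ℝ) := Real.sqrt_le_sqrt hxN'
          have hN2 : √(N : ℝ) * √(N : ℝ) = N := Real.mul_self_sqrt (Nat.cast_nonneg _)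
          rw [← g1, mul_assoc]
          refine mul_le_mul_of_nonneg_left ?_ (inv_nonneg.2 hs0.le)
          have e5 : (√(x.1 : ℝ))⁻¹ * (N : ℝ) = ((√(x.1 : ℝ))⁻¹ * √(N : ℝ)) * √(N : ℝ) := by
            rw [mul_assoc, hN2]
          rw [e5]
          refine le_mul_of_one_le_left (Real.sqrt_nonneg _) ?_
          rw [inv_mul_eq_div, one_le_div hs0]
          exact hsN
        calc (√(x.1 : ℝ))⁻¹ * (r x.2.1 * r x.2.2) * (2 * (√(x.1 : ℝ))⁻¹ + 2 * √N / q) =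
            (2 * ((√(x.1 : ℝ))⁻¹ * (√(x.1 : ℝ))⁻¹) + 2 / q * ((√(x.1 : ℝ))⁻¹ * √N)) * (r x.2.1 * r x.2.2) := by ring
          _ ≤ (2 * ((x.1 : ℕ) : ℝ)⁻¹ + 2 / q * (((x.1 : ℕ) : ℝ)⁻¹ * N)) * (r x.2.1 * r x.2.2) := by
              refine mul_le_mul_of_nonneg_right ?_ hrr
              rw [g1]
              have := mul_le_mul_of_nonneg_left g2 (show 0 ≤ 2 / (q : ℝ) by positivity)
              linarith only [this]
          _ = _ := by ring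
      calc ∑ y ∈ off N 𝓜, (if x.1 ≤ y.1 then f x y else 0) ≤
          (hh ^ 2 * q * tt r x) * ((∑ n ∈ 𝓜, r n) ^ 2 * (2 * (√(x.1 : ℝ))⁻¹ + 2 * √N / q)) := by
            refine e1.trans (mul_le_mul_of_nonneg_left (inner_le hr h𝓜 hx) ?_)
            have := ht0 x
            positivity
        _ = (hh ^ 2 * q * (∑ n ∈ 𝓜, r n) ^ 2) * (tt r x * (2 * (√(x.1 : ℝ))⁻¹ + 2 * √N / q)) := by ring
        _ ≤ (hh ^ 2 * q * (∑ n ∈ 𝓜, r n) ^ 2) * ((2 + 2 * N / q) * vv r x) :=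
            mul_le_mul_of_nonneg_left e2 (by positivity)
        _ = _ := by ring
  refine h1.trans (h2.trans ?_)
  have h4 := sum_le_sum h3
  rw [← sum_filter, ← mul_sum, ← mul_sum] at h4
  calc _ ≤ 2 * (q * hh ^ 2 * (∑ n ∈ 𝓜, r n) ^ 2 * ((2 + 2 * N / q) *
        ∑ x ∈ (off N 𝓜).filter (fun x => Rel (orth H) (x.1 * x.2.2) x.2.1), vv r x)) :=
        mul_le_mul_of_nonneg_left h4 (by norm_num)
    _ = _ := by ring

end Pool.Agent.Q28.CV
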